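import Pool.Agent.R611.HM.T11
import Pool.Agent.R611.HM.Def2

/-!
# 1-h-minimality implies omega-h-minimality

Levels are elements of `ℕ∞`, with `⊤` standing for `ω`. The definitions are in
`Pool.Agent.R611.HM.Def` and `Pool.Agent.R611.HM.Def2`.
-/

set_option autoImplicit false

namespace Pool.Agent.Results.MP_5cb3d8_lc.OneImpliesOmega

open FirstOrder Language Structure Pool.Agent.R611.HM

universe u

variable {L : FirstOrder.Language.{u, u}} {K : Type u} [L.Structure K] [Field K]
  {O : ValuationSubring K} {sy : ValSymbols L}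

/-- preparing sets can be enlarged by the point 0 -/
theorem hMinNe_of (hO : IsValued sy O) {l : ℕ∞} (h : HMinAt O L l) : HMinNe O L l := by
  intro lam h0 h1 A A' hA' hc X hX
  obtain ⟨C, hC, hCd, hCp⟩ := h lam h0 h1 A A' hA' hc X hX
  refine ⟨C ∪ {0}, hC.union (Set.finite_singleton 0), ⟨0, Or.inr rfl⟩, ?_, ?_⟩
  · have h2 : Df L (fun w : Fin 1 → K => w 0 = 0) :=
      Df.eq (DfF.var 0) (hO.vf.fzero)
    have h3 : A.Definable L {w : Fin 1 → K | w 0 = 0} :=
      Set.Definable.mono h2 (Set.empty_subset A)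
    exact Set.Definable.union hCd h3
  · intro x x' hx
    exact hCp x x' fun c hc => hx c (Or.inl hc)

theorem hMinAt_of {l : ℕ∞} (h : HMinNe O L l) : HMinAt O L l := by
  intro lam h0 h1 A A' hA' hc X hX
  obtain ⟨C, hC, _, hCd, hCp⟩ := h lam h0 h1 A A' hA' hc X hX
  exact ⟨C, hC, hCd, hCp⟩

/-- For every valued field `K` of equicharacteristic zero in a language expanding the language of
valued fields, if the theory of `K` is 1-h-minimal, then it is ω-h-minimal. -/
theorem result : ∀ (L : FirstOrder.Language.{u, u}) (sy : ValSymbols L) (K : Type u)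
    [L.Structure K] [Field K] (O : ValuationSubring K), IsValued sy O →
    HMinTh sy K 1 → HMinTh sy K ⊤ := by
  intro L sy K _ _ O _ h K' _ _ O' hKK hO'
  obtain ⟨N, hNs, j, hN⟩ := exists_satur_extension (L := L) K'
  obtain ⟨hNf, O'', hO''⟩ := exists_valued j hO'
  have h1 : TH L O''.valuation 1 := TH1_of hN hO'' (hMinAt_of
    (h N O'' (hKK.trans j.elementarilyEquivalent) hO''))
  exact hMinNe_of hO' (hminAt_of_TH j hO' hO'' hN (TH_all hN hO''.vf h1) ⊤)

end Pool.Agent.Results.MP_5cb3d8_lc.OneImpliesOmega
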